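import Pool.Agent.Y302.KP.Exist
import Pool.Agent.Y302.Trunc.Comp

/-!
The dyadic chain which belongs to the chain of frequencies.
-/

set_option autoImplicit false

open Set Filter Topology

namespace Pool.Agent.Y302.KP

open Pool.Agent.Y302.Trunc (num den bac)

/-- The scale. -/
noncomputable def sr (M n : ℕ) : ℝ := M * 8 ^ (n / 4)

/-- Forward coefficients. -/
noncomputable def Fc (M : ℕ) : ℕ → ℝ
  | 0 => 0
  | n + 1 => sr M n * ((num (n % 4) : ℝ) / (den (n % 4) : ℝ))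

/-- Backward coefficients. -/
noncomputable def gc (M n : ℕ) : ℝ := sr M n * (bac (n % 4) : ℝ)

/-- Energy weights. -/
def We : ℕ → ℝ
  | 0 => 22 | 1 => 10 | 2 => 11 | 3 => 13 | _ => 1

/-- weights -/
def om : ℕ → ℝ
  | 0 => 2 | 1 => 2 | 2 => 3 | 3 => 4 | _ => 1

lemma sr_pos {M : ℕ} (hM : 0 < M) (n : ℕ) : 0 < sr M n := by
  unfold sr
  have : (0 : ℝ) < M := by exact_mod_cast hM
  positivity

lemma mod_cases (n : ℕ) : ∃ j i, i < 4 ∧ n = 4 * j + i ∧ n % 4 = i ∧ n / 4 = j :=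
  ⟨n / 4, n % 4, Nat.mod_lt _ (by norm_num), (Nat.div_add_mod n 4).symm, rfl, rfl⟩

lemma gc_pos {M : ℕ} (hM : 0 < M) (n : ℕ) : 0 < gc M n := by
  unfold gc
  refine mul_pos (sr_pos hM n) ?_
  have h4 : n % 4 < 4 := Nat.mod_lt _ (by norm_num)
  generalize n % 4 = k at *
  interval_cases k <;> norm_num [bac]

lemma Fc_nonneg {M : ℕ} (hM : 0 < M) (n : ℕ) : 0 ≤ Fc M n := by
  cases n with
  | zero => exact le_rfl
  | succ n =>
    rw [Fc]
    refine mul_nonneg (sr_pos hM n).le ?_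
    have h4 : n % 4 < 4 := Nat.mod_lt _ (by norm_num)
    generalize n % 4 = k at *
    interval_cases k <;> norm_num [num, den]

lemma We_pos (n : ℕ) : 0 < We (n % 4) := by
  have h4 : n % 4 < 4 := Nat.mod_lt _ (by norm_num)
  generalize n % 4 = k at *
  interval_cases k <;> norm_num [We]

lemma om_pos (n : ℕ) : 0 < om (n % 4) := by
  have h4 : n % 4 < 4 := Nat.mod_lt _ (by norm_num)
  generalize n % 4 = k at *
  interval_cases k <;> norm_num [om]

/-- step in the index -/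
lemma step (n : ℕ) : ((n + 1) % 4 = n % 4 + 1 ∧ (n + 1) / 4 = n / 4 ∧ n % 4 < 3) ∨
    ((n + 1) % 4 = 0 ∧ (n + 1) / 4 = n / 4 + 1 ∧ n % 4 = 3) := by omega

/-- energy balance -/
lemma balance (M n : ℕ) :
    We ((n + 1) % 4) * Fc M (n + 1) = We (n % 4) * gc M n := by
  rw [Fc, gc]
  rcases step n with ⟨h1, _, h3⟩ | ⟨h1, _, h3⟩
  · rw [h1]
    generalize n % 4 = k at *
    interval_cases k <;> norm_num [We, num, den, bac] <;> ring
  · rw [h1, h3]
    norm_num [We, num, den, bac]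
    ring

lemma ratio_g {M : ℕ} (hM : 0 < M) (n : ℕ) : gc M (n + 1) * Fc M (n + 1) ≤ 5 * gc M n ^ 2 := by
  have hs := sr_pos hM n
  have hs2 : 0 < sr M n ^ 2 := by positivity
  rw [Fc, gc, gc]
  rcases step n with ⟨h1, h2, h3⟩ | ⟨h1, h2, h3⟩
  · have e : sr M (n + 1) = sr M n := by unfold sr; rw [h2]
    rw [e, h1]
    generalize n % 4 = k at *
    interval_cases k <;> norm_num [num, den, bac] <;> nlinarith
  · have e : sr M (n + 1) = 8 * sr M n := by unfold sr; rw [h2, pow_succ]; ring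
    rw [e, h1, h3]
    norm_num [num, den, bac]
    nlinarith

lemma Fc_le {M : ℕ} (hM : 0 < M) (n : ℕ) : Fc M (n + 1) ≤ 3 * gc M n := by
  have hs := sr_pos hM n
  rw [Fc, gc]
  have h4 : n % 4 < 4 := Nat.mod_lt _ (by norm_num)
  generalize n % 4 = k at *
  interval_cases k <;> norm_num [num, den, bac] <;> nlinarith

/-- the weights of the Lyapunov function -/
noncomputable def wc (n : ℕ) : ℝ := 4 ^ (n / 4) * om (n % 4)

/-- the dissipation weights -/
noncomputable def kc (M n : ℕ) : ℝ := 10 * (M * 32 ^ (n / 4))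

lemma wc_pos (n : ℕ) : 0 < wc n := mul_pos (by positivity) (om_pos n)

lemma kc_pos {M : ℕ} (hM : 0 < M) (n : ℕ) : 0 < kc M n := by
  unfold kc
  have : (0 : ℝ) < M := by exact_mod_cast hM
  positivity

lemma wg (M n : ℕ) : wc n * gc M n = M * 32 ^ (n / 4) * (om (n % 4) * bac (n % 4)) := by
  unfold wc gc sr
  have : (32 : ℝ) ^ (n / 4) = 4 ^ (n / 4) * 8 ^ (n / 4) := by
    rw [← mul_pow]; norm_num
  rw [this]; ring

/-- the coefficient `w₍ₙ₊₁₎ F₍ₙ₊₁₎` -/
def wF : ℕ → ℝ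
  | 0 => 26 | 1 => 32 | 2 => 81 | 3 => 226 | _ => 0

lemma wf_ge (M n : ℕ) : M * 32 ^ (n / 4) * wF (n % 4) ≤ wc (n + 1) * Fc M (n + 1) := by
  rw [wc, Fc]
  unfold sr
  have h32 : (32 : ℝ) ^ (n / 4) = 4 ^ (n / 4) * 8 ^ (n / 4) := by
    rw [← mul_pow]; norm_num
  have hp : 0 ≤ (M : ℝ) * (4 ^ (n / 4) * 8 ^ (n / 4)) := by positivity
  rw [h32]
  rcases step n with ⟨h1, h2, h3⟩ | ⟨h1, h2, h3⟩
  · rw [h1, h2]
    generalize n % 4 = k at *
    interval_cases k <;> norm_num [num, den, om, wF] <;> nlinarith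
  · rw [h1, h2, h3, pow_succ]
    norm_num [num, den, om, wF]
    nlinarith

lemma hw0 (M : ℕ) : 1 / 2 * (wc 0 * gc M 0) + kc M 0 ≤ wc 1 * Fc M 1 := by
  have h1 := wf_ge M 0
  rw [wg]
  unfold kc
  refine le_trans ?_ h1
  have : (0 : ℝ) ≤ M := Nat.cast_nonneg M
  norm_num [om, bac, wF]
  nlinarith

lemma hws (M n : ℕ) : 1 / 2 * (wc (n + 1) * gc M (n + 1)) + 1 / 2 * (wc n * gc M n) + kc M (n + 1)
    ≤ wc (n + 2) * Fc M (n + 2) := by
  have h1 := wf_ge M (n + 1)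
  rw [wg, wg]
  unfold kc
  refine le_trans ?_ h1
  have hp : 0 ≤ (M : ℝ) * 32 ^ (n / 4) := by positivity
  rcases step n with ⟨h1, h2, h3⟩ | ⟨h1, h2, h3⟩
  · rw [h1, h2]
    generalize n % 4 = k at *
    interval_cases k <;> norm_num [om, bac, wF] <;> nlinarith
  · rw [h1, h2, h3, pow_succ]
    norm_num [om, bac, wF]
    nlinarith

lemma sum_wk {M : ℕ} (hM : 0 < M) (N : ℕ) :
    ∑ n ∈ Finset.range N, wc n ^ 2 / kc M n ≤ 7 / M := by
  have hM' : (0 : ℝ) < M := by exact_mod_cast hM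
  have hterm : ∀ n, 0 ≤ wc n ^ 2 / kc M n := fun n =>
    div_nonneg (sq_nonneg _) (kc_pos hM n).le
  have hval : ∀ j i, i < 4 → wc (4 * j + i) ^ 2 / kc M (4 * j + i)
      = om i ^ 2 / (10 * M) * (1 / 2) ^ j := by
    intro j i hi
    have h1 : (4 * j + i) / 4 = j := by omega
    have h2 : (4 * j + i) % 4 = i := by omega
    unfold wc kc
    rw [h1, h2]
    have h3 : (32 : ℝ) ^ j = 16 ^ j * 2 ^ j := by rw [← mul_pow]; norm_num
    have h4 : ((4 : ℝ) ^ j) ^ 2 = 16 ^ j := by rw [← pow_mul, mul_comm, pow_mul]; norm_num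
    rw [mul_pow, h3, h4, one_div, inv_pow]
    have h5 : (16 : ℝ) ^ j ≠ 0 := by positivity
    have h6 : (2 : ℝ) ^ j ≠ 0 := by positivity
    field_simp
  have hblock : ∀ J, ∑ n ∈ Finset.range (4 * J), wc n ^ 2 / kc M n
      = 33 / (10 * M) * ∑ j ∈ Finset.range J, (1 / 2 : ℝ) ^ j := by
    intro J
    induction J with
    | zero => simp
    | succ J ih =>
      have e : 4 * (J + 1) = 4 * J + 1 + 1 + 1 + 1 := by ring
      rw [e, Finset.sum_range_succ, Finset.sum_range_succ, Finset.sum_range_succ,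
        Finset.sum_range_succ, ih, Finset.sum_range_succ]
      have v0 := hval J 0 (by norm_num)
      have v1 := hval J 1 (by norm_num)
      have v2 := hval J 2 (by norm_num)
      have v3 := hval J 3 (by norm_num)
      simp only [add_zero, add_assoc] at v0 v1 v2 v3 ⊢
      norm_num at v0 v1 v2 v3 ⊢
      rw [v0, v1, v2, v3]
      norm_num [om]
      ring
  have h1 : ∑ n ∈ Finset.range N, wc n ^ 2 / kc M n
      ≤ ∑ n ∈ Finset.range (4 * N), wc n ^ 2 / kc M n :=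
    Finset.sum_le_sum_of_subset_of_nonneg (Finset.range_mono (by omega)) fun n _ _ => hterm n
  refine h1.trans ?_
  rw [hblock]
  have h2 : ∑ j ∈ Finset.range N, (1 / 2 : ℝ) ^ j ≤ 2 := by
    have := (summable_geometric_two).sum_le_tsum (Finset.range N) (fun j _ => by positivity)
    rwa [tsum_geometric_two] at this
  calc 33 / (10 * (M : ℝ)) * ∑ j ∈ Finset.range N, (1 / 2 : ℝ) ^ j ≤ 33 / (10 * M) * 2 := by
        gcongr
    _ ≤ 7 / M := by
        rw [div_mul_eq_mul_div, div_le_div_iff₀ (by positivity) hM']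
        nlinarith

/-- normalised coefficients -/
noncomputable def cn (M n : ℕ) : ℝ := gc M n / Real.sqrt (We ((n + 1) % 4))

lemma cn_nonneg {M : ℕ} (hM : 0 < M) (n : ℕ) : 0 ≤ cn M n :=
  div_nonneg (gc_pos hM n).le (Real.sqrt_nonneg _)

/-- Existence of solutions of the chain. -/
theorem exists_sol_c {M : ℕ} (hM : 0 < M) {T : ℝ} (hT : 0 ≤ T) {δ : ℝ} (hδ : 0 ≤ δ) :
    ∃ a : ℕ → ℝ → ℝ, IsSol (Fc M) (gc M) T a ∧ a 0 0 = δ ∧ ∀ n, a (n + 1) 0 = 0 := by
  obtain ⟨b, hb, hb0⟩ := exists_sol (c := cn M) (cn_nonneg hM) hT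
    (b0 := fun n => if n = 0 then Real.sqrt (We 0) * δ else 0)
    (E := (Real.sqrt (We 0) * δ) ^ 2) (by
      intro n
      split_ifs
      · positivity
      · exact le_rfl) (by
      intro N
      cases N with
      | zero => simp only [Finset.range_zero, Finset.sum_empty]; positivity
      | succ N =>
        rw [Finset.sum_eq_single_of_mem 0 (Finset.mem_range.2 (Nat.succ_pos N))]
        · simp
        · intro n _ hn
          simp [hn])
  have hsq : ∀ n, Real.sqrt (We (n % 4)) ^ 2 = We (n % 4) := fun n =>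
    Real.sq_sqrt (We_pos n).le
  have hs : ∀ n, 0 < Real.sqrt (We (n % 4)) := fun n => Real.sqrt_pos.2 (We_pos n)
  refine ⟨fun n t => b n t / Real.sqrt (We (n % 4)), ⟨fun n t ht => ?_, fun n t ht => ?_⟩, ?_, ?_⟩
  · have h1 := (hb.deriv n t ht).div_const (Real.sqrt (We (n % 4)))
    refine h1.congr_deriv ?_
    simp only [rhs]
    cases n with
    | zero =>
      simp only [shiftF, Fc, cn, Nat.zero_sub]
      have h2 := (hs 0).ne'
      have h3 := (hs 1).ne'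
      simp only [zero_add] at *
      field_simp
      ring
    | succ n =>
      have e1 : Fc M (n + 1) = We (n % 4) * gc M n / We ((n + 1) % 4) := by
        rw [← balance, mul_comm, mul_div_assoc, div_self (We_pos (n + 1)).ne', mul_one]
      rw [e1]
      simp only [shiftF, cn, Nat.add_sub_cancel]
      rw [← hsq n, ← hsq (n + 1)]
      have h2 := (hs n).ne'
      have h3 := (hs (n + 1)).ne'
      have h4 := (hs (n + 1 + 1)).ne'
      simp only [Real.sqrt_sq (Real.sqrt_nonneg _)]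
      field_simp
  · exact div_nonneg (hb.nonneg n t ht) (Real.sqrt_nonneg _)
  · simp only [hb0, if_true]
    have := (hs 0).ne'
    field_simp
  · intro n
    simp [hb0]

lemma wc_le (n : ℕ) : wc n ≤ 4 * 4 ^ n := by
  unfold wc
  have h1 : (4 : ℝ) ^ (n / 4) ≤ 4 ^ n := pow_le_pow_right₀ (by norm_num) (Nat.div_le_self _ _)
  have h2 : om (n % 4) ≤ 4 := by
    have h4 : n % 4 < 4 := Nat.mod_lt _ (by norm_num)
    generalize n % 4 = k at *
    interval_cases k <;> norm_num [om]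
  calc (4 : ℝ) ^ (n / 4) * om (n % 4) ≤ 4 ^ n * 4 :=
        mul_le_mul h1 h2 (om_pos n).le (by positivity)
    _ = _ := mul_comm _ _

lemma gc_le (M n : ℕ) : gc M n ≤ 48 * M * 8 ^ n := by
  unfold gc sr
  have h1 : (8 : ℝ) ^ (n / 4) ≤ 8 ^ n := pow_le_pow_right₀ (by norm_num) (Nat.div_le_self _ _)
  have h2 : (bac (n % 4) : ℝ) ≤ 48 := by
    have h4 : n % 4 < 4 := Nat.mod_lt _ (by norm_num)
    generalize n % 4 = k at *
    interval_cases k <;> norm_num [bac]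
  have h0 : (0 : ℝ) ≤ (bac (n % 4) : ℝ) := by
    have h4 : n % 4 < 4 := Nat.mod_lt _ (by norm_num)
    generalize n % 4 = k at *
    interval_cases k <;> norm_num [bac]
  calc (M : ℝ) * 8 ^ (n / 4) * (bac (n % 4) : ℝ) ≤ (M * 8 ^ n) * 48 :=
        mul_le_mul (mul_le_mul_of_nonneg_left h1 (Nat.cast_nonneg M)) h2 h0 (by positivity)
    _ = _ := by ring

lemma lim1 {M : ℕ} (hM : 0 < M) :
    Tendsto (fun n => wc (n + 1) * Fc M (n + 1) / ((2 : ℝ) ^ (6 * n)) ^ 2) atTop (𝓝 0) := by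
  have h0 : Tendsto (fun n : ℕ => 2304 * (M : ℝ) * (1 / 128) ^ n) atTop (𝓝 0) := by
    have := (tendsto_pow_atTop_nhds_zero_of_lt_one (r := (1 / 128 : ℝ)) (by norm_num)
      (by norm_num)).const_mul (2304 * (M : ℝ))
    rwa [mul_zero] at this
  refine squeeze_zero (fun n => ?_) (fun n => ?_) h0
  · exact div_nonneg (mul_nonneg (wc_pos _).le (Fc_nonneg hM _)) (by positivity)
  · rw [div_le_iff₀ (by positivity)]
    have h1 : wc (n + 1) * Fc M (n + 1) ≤ (4 * 4 ^ (n + 1)) * (3 * (48 * M * 8 ^ n)) := by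
      refine mul_le_mul (wc_le _) ((Fc_le hM n).trans ?_) (Fc_nonneg hM _) (by positivity)
      exact mul_le_mul_of_nonneg_left (gc_le M n) (by norm_num)
    refine h1.trans (le_of_eq ?_)
    have h2 : ((2 : ℝ) ^ (6 * n)) ^ 2 = 128 ^ n * (4 ^ n * 8 ^ n) := by
      rw [← pow_mul, ← mul_pow, ← mul_pow, mul_comm 6 n, mul_assoc, mul_comm n, pow_mul]
      norm_num
    rw [h2, pow_succ, one_div, inv_pow]
    have : (128 : ℝ) ^ n ≠ 0 := by positivity
    field_simp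
    ring

lemma lim2 {M : ℕ} (hM : 0 < M) :
    Tendsto (fun n => wc n * gc M n / ((2 : ℝ) ^ (6 * (n + 1))) ^ 2) atTop (𝓝 0) := by
  have h0 : Tendsto (fun n : ℕ => 192 * (M : ℝ) * (1 / 128) ^ n) atTop (𝓝 0) := by
    have := (tendsto_pow_atTop_nhds_zero_of_lt_one (r := (1 / 128 : ℝ)) (by norm_num)
      (by norm_num)).const_mul (192 * (M : ℝ))
    rwa [mul_zero] at this
  refine squeeze_zero (fun n => ?_) (fun n => ?_) h0
  · exact div_nonneg (mul_nonneg (wc_pos _).le (gc_pos hM _).le) (by positivity)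
  · rw [div_le_iff₀ (by positivity)]
    have h1 : wc n * gc M n ≤ (4 * 4 ^ n) * (48 * M * 8 ^ n) :=
      mul_le_mul (wc_le _) (gc_le M n) (gc_pos hM _).le (by positivity)
    refine h1.trans ?_
    have h2 : ((2 : ℝ) ^ (6 * (n + 1))) ^ 2 = 4096 * (128 ^ n * (4 ^ n * 8 ^ n)) := by
      rw [← pow_mul, ← mul_pow, ← mul_pow, mul_add, add_mul, pow_add, mul_comm 6 n, mul_assoc,
        mul_comm n, pow_mul]
      norm_num
      ring
    rw [h2, one_div, inv_pow]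
    have h3 : (128 : ℝ) ^ n ≠ 0 := by positivity
    have h4 : 192 * (M : ℝ) * ((128 : ℝ) ^ n)⁻¹ * (4096 * (128 ^ n * (4 ^ n * 8 ^ n)))
        = 4096 * ((4 * 4 ^ n) * (48 * M * 8 ^ n)) := by field_simp; ring
    rw [h4]
    have h5 : 0 ≤ (4 * 4 ^ n) * (48 * (M : ℝ) * 8 ^ n) := by positivity
    linarith

/-- The chain: the solution and its blow-up time. -/
theorem main_ode {M : ℕ} (hM : 0 < M) {δ : ℝ} (hδ : 0 < δ) :
    ∃ (a : ℕ → ℝ → ℝ) (Ts T : ℝ), IsSol (Fc M) (gc M) T a ∧ a 0 0 = δ ∧ (∀ n, a (n + 1) 0 = 0) ∧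
      0 < Ts ∧ Ts ≤ 7 / (M * δ) ∧ Ts < T ∧
      (∀ T' < Ts, ∀ s : ℕ, ∃ B, ∀ t ∈ Icc 0 T', ∀ n, (2 : ℝ) ^ (s * n) * a n t ≤ B) ∧
      ∀ t ∈ Ico 0 Ts, ∀ B, (∀ n, gc M n * a n t ≤ B) → 1 / (5 * (Ts - t)) ≤ B := by
  have hM' : (0 : ℝ) < M := by exact_mod_cast hM
  set T : ℝ := 7 / (M * δ) + 1 with hTdef
  have hT0 : 0 ≤ T := by positivity
  obtain ⟨a, ha, ha0, han⟩ := exists_sol_c hM hT0 hδ.le
  have hw0v : wc 0 = 2 := by norm_num [wc, om]
  have hS : 2 * (7 / (M : ℝ)) / (wc 0 * a 0 0) = 7 / (M * δ) := by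
    rw [hw0v, ha0]; field_simp
  have hv : ∀ s : ℕ, ∀ n, (0 : ℝ) < 2 ^ (s * n) := fun s n => by positivity
  have hKv : ∀ s n : ℕ, (2 : ℝ) ^ (s * (n + 1)) * Fc M (n + 1)
      ≤ 3 * 2 ^ s * gc M n * 2 ^ (s * n) := by
    intro s n
    have h1 := Fc_le hM n
    calc (2 : ℝ) ^ (s * (n + 1)) * Fc M (n + 1) ≤ 2 ^ (s * (n + 1)) * (3 * gc M n) :=
          mul_le_mul_of_nonneg_left h1 (hv s _).le
      _ = _ := by rw [mul_add, mul_one, pow_add]; ring
  have hY0 : ∀ n, gc M n * a n 0 ≤ gc M 0 * δ := by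
    intro n
    cases n with
    | zero => rw [ha0]
    | succ n => rw [han, mul_zero]; exact mul_nonneg (gc_pos hM 0).le hδ.le
  have hB0 : ∀ s n : ℕ, (2 : ℝ) ^ (s * n) * a n 0 ≤ δ := by
    intro s n
    cases n with
    | zero => simp [ha0]
    | succ n => rw [han, mul_zero]; exact hδ.le
  obtain ⟨Ts, hTs0, hTs1, hbd, hrate⟩ := exists_blowup ha rfl (Fc_nonneg hM) (w := wc)
    (κ := kc M) (v := fun n => 2 ^ (6 * n)) wc_pos (hv 6) (gc_pos hM) (kc_pos hM) (hw0 M) (hws M)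
    (S := 7 / M) (by positivity) (sum_wk hM) (K := 5) (Kv := 3 * 2 ^ 6) (by norm_num)
    (ratio_g hM) (by norm_num) (hKv 6) (lim1 hM) (lim2 hM)
    (Y := gc M 0 * δ) (B := δ) (mul_pos (gc_pos hM 0) hδ) hY0 hδ.le (hB0 6) (by rw [ha0]; exact hδ)
    (by rw [hS, hTdef]; linarith)
  rw [hS] at hTs1
  have hTsT : Ts < T := by rw [hTdef]; linarith
  refine ⟨a, Ts, T, ha, ha0, han, hTs0, hTs1, hTsT, ?_, hrate⟩
  intro T' hT' s
  obtain ⟨B, hB⟩ := hbd T' hT'
  have h1 : ∀ n, ∀ t ∈ Icc 0 T', gc M n * a n t ≤ max B 0 := fun n t ht =>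
    (hB t ht n).trans (le_max_left _ _)
  refine ⟨δ * Real.exp (3 * 2 ^ s * max B 0 * T'), fun t ht n => ?_⟩
  refine (bound_w ha rfl (gc_pos hM) (w := fun n => 2 ^ (s * n)) (hv s) (K := 3 * 2 ^ s)
    (by positivity) (hKv s) (hT'.le.trans hTsT.le) (le_max_right B 0) hδ.le h1 (hB0 s) n t
    ht).trans ?_
  refine mul_le_mul_of_nonneg_left (Real.exp_le_exp.2 ?_) hδ.le
  exact mul_le_mul_of_nonneg_left ht.2 (by positivity)

end Pool.Agent.Y302.KP
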