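import Pool.Agent.Y302.KP.Ode
import Pool.Agent.H772R2.NSR.Ode

/-!
Existence of componentwise solutions of the dyadic chain.
-/

set_option autoImplicit false

open Set Filter Topology
open scoped InnerProductSpace NNReal

namespace Pool.Agent.Y302.KP

/-- `F` from `c`. -/
def shiftF (c : ℕ → ℝ) : ℕ → ℝ
  | 0 => 0
  | n + 1 => c n

/-- positivity -/
lemma nonneg_of {y y' : ℝ → ℝ} {T L : ℝ} (hc : ContinuousOn y (Icc 0 T))
    (hd : ∀ t ∈ Ico 0 T, HasDerivWithinAt y (y' t) (Ici t) t) (h0 : 0 ≤ y 0)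
    (hb : ∀ t ∈ Ico 0 T, y t < 0 → L * y t ≤ y' t) : ∀ t ∈ Icc 0 T, 0 ≤ y t := by
  intro t ht
  by_contra hcon
  push Not at hcon
  -- choose ε
  set ε : ℝ := -y t / (2 * Real.exp ((L + 1) * t)) with hε
  have hεpos : 0 < ε := div_pos (by linarith) (by positivity)
  have hE : ∀ s : ℝ, HasDerivAt (fun s => -ε * Real.exp ((L + 1) * s))
      ((L + 1) * (-ε * Real.exp ((L + 1) * s))) s := by
    intro s
    have h2 : HasDerivAt (fun s => (L + 1) * s) (L + 1) s := by
      simpa using (hasDerivAt_id s).const_mul (L + 1)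
    refine ((h2.exp).const_mul (-ε)).congr_deriv ?_
    ring
  have key := image_le_of_deriv_right_lt_deriv_boundary'
    (f := fun s => -ε * Real.exp ((L + 1) * s))
    (f' := fun s => (L + 1) * (-ε * Real.exp ((L + 1) * s))) (a := 0) (b := T)
    (fun s _ => (hE s).continuousAt.continuousWithinAt)
    (fun s _ => (hE s).hasDerivWithinAt) (B := y) (by simp; linarith) hc hd ?_ ht
  · have h1 : -ε * Real.exp ((L + 1) * t) = y t / 2 := by
      rw [hε]
      have := (Real.exp_pos ((L + 1) * t)).ne'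
      field_simp
    rw [h1] at key
    linarith
  · intro s hs heq
    have hneg : y s < 0 := by
      rw [← heq]
      have := mul_pos hεpos (Real.exp_pos ((L + 1) * s))
      linarith
    have h1 := hb s hs hneg
    rw [heq]
    linarith

/-- a derivative from a quadratic bound -/
lemma hasDerivWithinAt_of_sq {f : ℝ → ℝ} {f' C t : ℝ} {s : Set ℝ}
    (h : ∀ x ∈ s, |f x - f t - (x - t) * f'| ≤ C * (x - t) ^ 2) : HasDerivWithinAt f f' s t := by
  rw [hasDerivWithinAt_iff_isLittleO]
  have h1 : (fun x => f x - f t - (x - t) • f') =O[𝓝[s] t] fun x => (x - t) ^ 2 := by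
    refine Asymptotics.IsBigO.of_bound C ?_
    filter_upwards [self_mem_nhdsWithin] with x hx
    have := h x hx
    rwa [smul_eq_mul, Real.norm_eq_abs, Real.norm_eq_abs, abs_of_nonneg (sq_nonneg (x - t))]
  refine h1.trans_isLittleO ?_
  have h2 : (fun x => (x - t) ^ 2) =o[𝓝 t] fun x => x - t := by
    simp_rw [pow_two]
    have h3 : (fun x : ℝ => x - t) =o[𝓝 t] fun _ => (1 : ℝ) := by
      rw [Asymptotics.isLittleO_one_iff]
      have : Tendsto (fun x : ℝ => x - t) (𝓝 t) (𝓝 (t - t)) :=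
        (continuous_id.sub continuous_const).tendsto t
      simpa using this
    simpa using h3.mul_isBigO (Asymptotics.isBigO_refl (fun x : ℝ => x - t) (𝓝 t))
  exact h2.mono nhdsWithin_le_nhds

section galerkin

variable (c : ℕ → ℝ) (N : ℕ)

/-- extension by zero -/
noncomputable def ext (x : EuclideanSpace ℝ (Fin N)) (n : ℕ) : ℝ :=
  if h : n < N then x ⟨n, h⟩ else 0

lemma ext_contDiff (n : ℕ) : ContDiff ℝ 1 (fun x : EuclideanSpace ℝ (Fin N) => ext N x n) := by
  unfold ext
  split_ifs with h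
  · exact (EuclideanSpace.proj (𝕜 := ℝ) (⟨n, h⟩ : Fin N)).contDiff
  · exact contDiff_const

/-- the vector field -/
noncomputable def X (x : EuclideanSpace ℝ (Fin N)) : EuclideanSpace ℝ (Fin N) :=
  WithLp.toLp 2 (fun i : Fin N => rhs (shiftF c) c (ext N x) i)

lemma X_contDiff : ContDiff ℝ 1 (X c N) := by
  rw [contDiff_euclidean]
  intro i
  simp only [X, rhs]
  exact (contDiff_const.mul ((ext_contDiff N _).pow 2)).sub
    ((contDiff_const.mul (ext_contDiff N _)).mul (ext_contDiff N _))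

lemma sum_energy (b : ℕ → ℝ) (M : ℕ) :
    ∑ n ∈ Finset.range M, rhs (shiftF c) c b n * b n
      = -(if M = 0 then 0 else c (M - 1) * b (M - 1) ^ 2 * b M) := by
  induction M with
  | zero => simp
  | succ M ih =>
    rw [Finset.sum_range_succ, ih]
    rcases M with _ | M
    · simp [rhs, shiftF]; ring
    · simp only [rhs, shiftF, Nat.add_sub_cancel, Nat.add_eq_zero_iff, one_ne_zero, and_false,
        if_false]
      ring

lemma inner_X (x : EuclideanSpace ℝ (Fin N)) : ⟪X c N x, x⟫_ℝ = 0 := by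
  have h1 : ⟪X c N x, x⟫_ℝ = ∑ n ∈ Finset.range N, rhs (shiftF c) c (ext N x) n * ext N x n := by
    rw [← Fin.sum_univ_eq_sum_range (fun n => rhs (shiftF c) c (ext N x) n * ext N x n) N]
    rw [PiLp.inner_apply]
    refine Finset.sum_congr rfl fun i _ => ?_
    have h2 : ext N x i = x i := by simp [ext]
    rw [h2]
    simp [X, mul_comm]
  rw [h1, sum_energy]
  rcases N with _ | N
  · simp
  · have : ext (N + 1) x (N + 1) = 0 := by simp [ext]
    simp [this]

/-- Galerkin trajectories. -/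
theorem galerkin {T : ℝ} (hT : 0 ≤ T) (b0 : ℕ → ℝ) {E : ℝ}
    (hE : ∀ M, ∑ n ∈ Finset.range M, b0 n ^ 2 ≤ E) :
    ∃ a : ℕ → ℝ → ℝ, (∀ n < N, a n 0 = b0 n) ∧ (∀ n, N ≤ n → ∀ t, a n t = 0) ∧
      (∀ n < N, ∀ t ∈ Icc 0 T,
        HasDerivWithinAt (a n) (rhs (shiftF c) c (fun m => a m t) n) (Icc 0 T) t) ∧
      ∀ n, ∀ t ∈ Icc 0 T, |a n t| ≤ Real.sqrt E := by
  obtain ⟨x, hx0, hxd, hxb⟩ := H772R2.NSR.exists_global (fun _ => X c N) hT
    (fun R => by
      obtain ⟨K, hK⟩ := LocallyLipschitzOn.exists_lipschitzOnWith_of_compact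
        (isCompact_closedBall (0 : EuclideanSpace ℝ (Fin N)) R)
        ((X_contDiff c N).locallyLipschitz.locallyLipschitzOn (s := Metric.closedBall 0 R))
      exact ⟨K, fun _ _ => hK⟩)
    (fun _ => continuousOn_const) (WithLp.toLp 2 fun i : Fin N => b0 i) (le_refl 0)
    (fun _ _ x => (inner_X c N x).le)
  refine ⟨fun n t => ext N (x t) n, fun n hn => ?_, fun n hn t => ?_, fun n hn t ht => ?_,
    fun n t ht => ?_⟩
  · simp [ext, hn, hx0]
  · simp [ext, not_lt.2 hn]
  · have h1 := hxd t ht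
    have h2 := (EuclideanSpace.proj (𝕜 := ℝ) (⟨n, hn⟩ : Fin N)).hasFDerivAt.comp_hasDerivWithinAt t h1
    have h3 : (fun s => ext N (x s) n) = (fun s => x s ⟨n, hn⟩) := by
      funext s; simp [ext, hn]
    change HasDerivWithinAt (fun s => ext N (x s) n) _ _ _
    rw [h3]
    exact h2
  · have h1 := hxb t ht
    simp only [mul_zero, zero_mul, add_zero] at h1
    have h2 : ‖(WithLp.toLp 2 fun i : Fin N => b0 i : EuclideanSpace ℝ (Fin N))‖ ^ 2 ≤ E := by
      rw [EuclideanSpace.norm_sq_eq]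
      simp only [Real.norm_eq_abs, sq_abs]
      rw [Fin.sum_univ_eq_sum_range (fun n => b0 n ^ 2) N]
      exact hE N
    have h3 : |ext N (x t) n| ≤ ‖x t‖ := by
      unfold ext
      split_ifs with h
      · have := PiLp.norm_apply_le (x t) ⟨n, h⟩
        rwa [Real.norm_eq_abs] at this
      · simp
    refine h3.trans (Real.le_sqrt_of_sq_le (h1.trans h2))

end galerkin

lemma shiftF_nonneg {c : ℕ → ℝ} (hc : ∀ n, 0 ≤ c n) (n : ℕ) : 0 ≤ shiftF c n := by
  cases n with
  | zero => exact le_rfl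
  | succ n => exact hc n

/-- Existence. -/
theorem exists_sol {c : ℕ → ℝ} (hc : ∀ n, 0 ≤ c n) {T : ℝ} (hT : 0 ≤ T) {b0 : ℕ → ℝ}
    (hb0 : ∀ n, 0 ≤ b0 n) {E : ℝ} (hE : ∀ M, ∑ n ∈ Finset.range M, b0 n ^ 2 ≤ E) :
    ∃ a : ℕ → ℝ → ℝ, IsSol (shiftF c) c T a ∧ ∀ n, a n 0 = b0 n := by
  choose a ha0 haN had hab using fun N => galerkin c N hT b0 hE
  set R : ℝ := Real.sqrt E with hR
  have hR0 : 0 ≤ R := Real.sqrt_nonneg E
  have hcont : ∀ N n, n < N → ContinuousOn (a N n) (Icc 0 T) := fun N n hn t ht =>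
    (had N n hn t ht).continuousWithinAt
  -- nonnegativity
  have hnn : ∀ N n, ∀ t ∈ Icc 0 T, 0 ≤ a N n t := by
    intro N n
    rcases le_or_gt N n with hn | hn
    · intro t _; rw [haN N n hn]
    · refine nonneg_of (y' := fun t => rhs (shiftF c) c (fun m => a N m t) n) (L := c n * R)
        (hcont N n hn) (fun t ht => ?_) (by rw [ha0 N n hn]; exact hb0 n) (fun t ht hneg => ?_)
      · exact (had N n hn t ⟨ht.1, ht.2.le⟩).mono_of_mem_nhdsWithin (Icc_mem_nhdsGE_of_mem ht)
      · have h1 : 0 ≤ shiftF c n * a N (n - 1) t ^ 2 :=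
          mul_nonneg (shiftF_nonneg hc n) (sq_nonneg _)
        have h2 := hab N (n + 1) t ⟨ht.1, ht.2.le⟩
        have h3 : a N (n + 1) t ≤ R := (le_abs_self _).trans h2
        have h4 : -R ≤ a N (n + 1) t := (abs_le.1 h2).1
        simp only [rhs]
        have h5 : 0 ≤ -(c n * a N n t) * (R + a N (n + 1) t) :=
          mul_nonneg (by nlinarith [hc n]) (by linarith)
        nlinarith
  -- Lipschitz constants
  set D : ℕ → ℝ := fun n => (shiftF c n + c n) * R ^ 2 with hD
  have hD0 : ∀ n, 0 ≤ D n := fun n =>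
    mul_nonneg (add_nonneg (shiftF_nonneg hc n) (hc n)) (sq_nonneg R)
  have hrhs : ∀ N n, ∀ t ∈ Icc 0 T, |rhs (shiftF c) c (fun m => a N m t) n| ≤ D n := by
    intro N n t ht
    have h1 := hab N n t ht
    have h2 := hab N (n - 1) t ht
    have h3 := hab N (n + 1) t ht
    simp only [rhs, hD]
    refine (abs_sub _ _).trans ?_
    rw [abs_mul, abs_mul, abs_mul, abs_of_nonneg (shiftF_nonneg hc n), abs_of_nonneg (hc n),
      abs_pow, add_mul, pow_two, pow_two]
    refine add_le_add (mul_le_mul_of_nonneg_left (mul_le_mul h2 h2 (abs_nonneg _) hR0)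
      (shiftF_nonneg hc n)) ?_
    rw [mul_assoc]
    exact mul_le_mul_of_nonneg_left (mul_le_mul h1 h3 (abs_nonneg _) hR0) (hc n)
  have hlip : ∀ N n, ∀ s ∈ Icc 0 T, ∀ t ∈ Icc 0 T, |a N n s - a N n t| ≤ D n * |s - t| := by
    intro N n s hs t ht
    rcases le_or_gt N n with hn | hn
    · rw [haN N n hn, haN N n hn]
      simpa using mul_nonneg (hD0 n) (abs_nonneg (s - t))
    · exact (convex_Icc (0 : ℝ) T).norm_image_sub_le_of_norm_hasDerivWithin_le
        (fun r hr => had N n hn r hr) (fun r hr => hrhs N n r hr) ht hs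
  set C : ℕ → ℝ := fun n => shiftF c n * (2 * R * D (n - 1))
    + c n * (R * D (n + 1) + R * D n) with hC
  have hC0 : ∀ n, 0 ≤ C n := by
    intro n
    have h1 := hD0 (n - 1)
    have h2 := hD0 n
    have h3 := hD0 (n + 1)
    have h4 := shiftF_nonneg hc n
    have h5 := hc n
    simp only [hC]
    positivity
  have hrl : ∀ N n, ∀ s ∈ Icc 0 T, ∀ t ∈ Icc 0 T,
      |rhs (shiftF c) c (fun m => a N m s) n - rhs (shiftF c) c (fun m => a N m t) n|
        ≤ C n * |s - t| := by
    intro N n s hs t ht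
    have e : rhs (shiftF c) c (fun m => a N m s) n - rhs (shiftF c) c (fun m => a N m t) n
        = shiftF c n * ((a N (n - 1) s + a N (n - 1) t) * (a N (n - 1) s - a N (n - 1) t))
          - c n * (a N n s * (a N (n + 1) s - a N (n + 1) t)
            + a N (n + 1) t * (a N n s - a N n t)) := by
      simp only [rhs]; ring
    rw [e]
    have h0 := hlip N (n - 1) s hs t ht
    have h1 := hlip N n s hs t ht
    have h2 := hlip N (n + 1) s hs t ht
    have b0 : |a N (n - 1) s + a N (n - 1) t| ≤ 2 * R := by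
      refine (abs_add_le _ _).trans ?_
      linarith [hab N (n - 1) s hs, hab N (n - 1) t ht]
    have b1 := hab N n s hs
    have b2 := hab N (n + 1) t ht
    refine (abs_sub _ _).trans ?_
    rw [abs_mul, abs_mul (c n), abs_of_nonneg (shiftF_nonneg hc n), abs_of_nonneg (hc n)]
    have t1 : |(a N (n - 1) s + a N (n - 1) t) * (a N (n - 1) s - a N (n - 1) t)|
        ≤ 2 * R * (D (n - 1) * |s - t|) := by
      rw [abs_mul]
      exact mul_le_mul b0 h0 (abs_nonneg _) (by positivity)
    have t2 : |a N n s * (a N (n + 1) s - a N (n + 1) t) + a N (n + 1) t * (a N n s - a N n t)|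
        ≤ R * (D (n + 1) * |s - t|) + R * (D n * |s - t|) := by
      refine (abs_add_le _ _).trans (add_le_add ?_ ?_)
      · rw [abs_mul]; exact mul_le_mul b1 h2 (abs_nonneg _) hR0
      · rw [abs_mul]; exact mul_le_mul b2 h1 (abs_nonneg _) hR0
    have t3 := mul_le_mul_of_nonneg_left t1 (shiftF_nonneg hc n)
    have t4 := mul_le_mul_of_nonneg_left t2 (hc n)
    simp only [hC]
    nlinarith
  have htay : ∀ N n, n < N → ∀ s ∈ Icc 0 T, ∀ t ∈ Icc 0 T,
      |a N n s - a N n t - (s - t) * rhs (shiftF c) c (fun m => a N m t) n|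
        ≤ C n * (s - t) ^ 2 := by
    intro N n hn s hs t ht
    have hsub : uIcc t s ⊆ Icc 0 T := by
      rw [uIcc_comm]
      exact (convex_Icc 0 T).ordConnected.uIcc_subset hs ht
    have h1 := (convex_uIcc t s).norm_image_sub_le_of_norm_hasDerivWithin_le
      (f := fun r => a N n r - r * rhs (shiftF c) c (fun m => a N m t) n)
      (f' := fun r => rhs (shiftF c) c (fun m => a N m r) n
        - rhs (shiftF c) c (fun m => a N m t) n) (C := C n * |s - t|)
      (fun r hr => by
        have h2 := ((had N n hn r (hsub hr)).mono hsub).sub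
          (((hasDerivAt_id r).mul_const (rhs (shiftF c) c (fun m => a N m t) n)).hasDerivWithinAt
            (s := uIcc t s))
        refine h2.congr_deriv ?_
        simp)
      (fun r hr => by
        refine (hrl N n r (hsub hr) t ht).trans (mul_le_mul_of_nonneg_left ?_ (hC0 n))
        have := abs_sub_left_of_mem_uIcc hr
        simpa [abs_sub_comm] using this)
      left_mem_uIcc right_mem_uIcc
    rw [Real.norm_eq_abs, Real.norm_eq_abs, mul_assoc, ← pow_two, sq_abs] at h1
    convert h1 using 2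
    ring
  -- the limit
  have hlim : ∀ n t, ∃ b : ℝ, t ∈ Icc 0 T → Tendsto (fun N => a N n t) (hyperfilter ℕ : Filter ℕ)
      (𝓝 b) := by
    intro n t
    by_cases ht : t ∈ Icc 0 T
    · have hle : ((hyperfilter ℕ).map fun N => a N n t : Ultrafilter ℝ) ≤ 𝓟 (Icc (-R) R) := by
        rw [le_principal_iff, Ultrafilter.coe_map]
        exact Filter.mem_map.2 (Filter.univ_mem' fun N => abs_le.1 (hab N n t ht))
      obtain ⟨b, _, hb⟩ := isCompact_Icc.ultrafilter_le_nhds _ hle
      exact ⟨b, fun _ => hb⟩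
    · exact ⟨0, fun h => absurd h ht⟩
  choose b hb using hlim
  have hev : ∀ n, ∀ᶠ N in (hyperfilter ℕ : Filter ℕ), n < N := fun n =>
    (Nat.hyperfilter_le_atTop (eventually_gt_atTop n))
  refine ⟨b, ⟨fun n t ht => ?_, fun n t ht => ?_⟩, fun n => ?_⟩
  · refine hasDerivWithinAt_of_sq (C := C n) fun s hs => ?_
    have h1 : Tendsto (fun N => |a N n s - a N n t
        - (s - t) * rhs (shiftF c) c (fun m => a N m t) n|) (hyperfilter ℕ : Filter ℕ)
        (𝓝 |b n s - b n t - (s - t) * rhs (shiftF c) c (fun m => b m t) n|) := by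
      refine (((hb n s hs).sub (hb n t ht)).sub (Tendsto.const_mul _ ?_)).abs
      simp only [rhs]
      exact (((hb (n - 1) t ht).pow 2).const_mul _).sub
        (((hb n t ht).const_mul _).mul (hb (n + 1) t ht))
    exact le_of_tendsto h1 ((hev n).mono fun N hN => htay N n hN s hs t ht)
  · exact ge_of_tendsto (hb n t ht) (Filter.Eventually.of_forall fun N => hnn N n t ht)
  · have h1 := hb n 0 ⟨le_rfl, hT⟩
    refine tendsto_nhds_unique h1 (tendsto_const_nhds.congr' ?_)
    exact (hev n).mono fun N hN => (ha0 N n hN).symm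

end Pool.Agent.Y302.KP
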