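import Mathlib

/-!
A dyadic chain `aₙ' = Fₙ aₙ₋₁² - gₙ aₙ aₙ₊₁` (with `F₀ = 0`): bounds for nonnegative solutions.
-/

set_option autoImplicit false

open Set Filter Topology

namespace Pool.Agent.Y302.KP

/-- The right hand side of the chain. -/
def rhs (F g : ℕ → ℝ) (a : ℕ → ℝ) (n : ℕ) : ℝ := F n * a (n - 1) ^ 2 - g n * a n * a (n + 1)

/-- Nonnegative solutions on `[0, T]`, componentwise. -/
structure IsSol (F g : ℕ → ℝ) (T : ℝ) (a : ℕ → ℝ → ℝ) : Prop where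
  deriv : ∀ n, ∀ t ∈ Icc 0 T, HasDerivWithinAt (a n) (rhs F g (fun m => a m t) n) (Icc 0 T) t
  nonneg : ∀ n, ∀ t ∈ Icc 0 T, 0 ≤ a n t

variable {F g : ℕ → ℝ} {T : ℝ} {a : ℕ → ℝ → ℝ}

lemma IsSol.cont (h : IsSol F g T a) (n : ℕ) {t0 t1 : ℝ} (h0 : 0 ≤ t0) (h1 : t1 ≤ T) :
    ContinuousOn (a n) (Icc t0 t1) := by
  intro t ht
  exact ((h.deriv n t ⟨h0.trans ht.1, ht.2.trans h1⟩).continuousWithinAt).mono
    (Icc_subset_Icc h0 h1)

lemma IsSol.right (h : IsSol F g T a) (n : ℕ) {t : ℝ} (h0 : 0 ≤ t) (h1 : t < T) :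
    HasDerivWithinAt (a n) (rhs F g (fun m => a m t) n) (Ici t) t :=
  (h.deriv n t ⟨h0, h1.le⟩).mono_of_mem_nhdsWithin (Icc_mem_nhdsGE_of_mem ⟨h0, h1⟩)

lemma IsSol.rhs_le (h : IsSol F g T a) (hg : ∀ n, 0 < g n) (n : ℕ) {t : ℝ} (ht : t ∈ Icc 0 T) :
    rhs F g (fun m => a m t) n ≤ F n * a (n - 1) t ^ 2 := by
  have h1 : 0 ≤ g n * a n t * a (n + 1) t :=
    mul_nonneg (mul_nonneg (hg n).le (h.nonneg n t ht)) (h.nonneg (n + 1) t ht)
  simp only [rhs]
  linarith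

/-- Comparison with `φ' = K φ²`. -/
theorem bound_g (h : IsSol F g T a) (hF0 : F 0 = 0)
    (hg : ∀ n, 0 < g n) {K : ℝ} (hK0 : 0 < K) (hK : ∀ n, g (n + 1) * F (n + 1) ≤ K * g n ^ 2)
    {t0 t1 Y : ℝ} (h0 : 0 ≤ t0) (h1 : t1 ≤ T) (hY : 0 < Y) (hY0 : ∀ n, g n * a n t0 ≤ Y)
    (hlt : K * Y * (t1 - t0) < 1) (n : ℕ) :
    ∀ t ∈ Icc t0 t1, g n * a n t ≤ Y / (1 - K * Y * (t - t0)) := by
  have hpos : ∀ t ∈ Icc t0 t1, 0 < 1 - K * Y * (t - t0) := by
    intro t ht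
    have : K * Y * (t - t0) ≤ K * Y * (t1 - t0) :=
      mul_le_mul_of_nonneg_left (by linarith [ht.2]) (by positivity)
    linarith
  have hB' : ∀ t ∈ Icc t0 t1, HasDerivAt (fun s => Y / (1 - K * Y * (s - t0)))
      (K * (Y / (1 - K * Y * (t - t0))) ^ 2) t := by
    intro t ht
    have h2 : HasDerivAt (fun s => 1 - K * Y * (s - t0)) (-(K * Y * 1)) t := by
      have h3 : HasDerivAt (fun s => K * Y * (s - t0)) (K * Y * 1) t :=
        ((hasDerivAt_id t).sub_const t0).const_mul (K * Y)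
      simpa using h3.const_sub 1
    have h4 := (hasDerivAt_const t Y).fun_div h2 (hpos t ht).ne'
    refine h4.congr_deriv ?_
    have := (hpos t ht).ne'
    field_simp
    ring
  have hBc : ContinuousOn (fun s => Y / (1 - K * Y * (s - t0))) (Icc t0 t1) := fun t ht =>
    (hB' t ht).continuousAt.continuousWithinAt
  induction n with
  | zero =>
    intro t ht
    refine image_le_of_deriv_right_le_deriv_boundary (f := fun s => g 0 * a 0 s)
      (f' := fun s => g 0 * rhs F g (fun m => a m s) 0)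
      (B' := fun s => K * (Y / (1 - K * Y * (s - t0))) ^ 2)
      (continuousOn_const.mul (h.cont 0 h0 h1))
      (fun s hs => (h.right 0 (h0.trans hs.1) (hs.2.trans_le h1)).const_mul _) ?_ hBc
      (fun s hs => (hB' s ⟨hs.1, hs.2.le⟩).hasDerivWithinAt) ?_ ht
    · simpa using hY0 0
    · intro s hs
      have h5 := h.rhs_le hg 0 (t := s) ⟨h0.trans hs.1, (hs.2.trans_le h1).le⟩
      rw [hF0, zero_mul] at h5
      have h6 : g 0 * rhs F g (fun m => a m s) 0 ≤ 0 := mul_nonpos_of_nonneg_of_nonpos (hg 0).le h5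
      have h7 : 0 ≤ K * (Y / (1 - K * Y * (s - t0))) ^ 2 := by positivity
      linarith
  | succ n ih =>
    intro t ht
    refine image_le_of_deriv_right_le_deriv_boundary (f := fun s => g (n + 1) * a (n + 1) s)
      (f' := fun s => g (n + 1) * rhs F g (fun m => a m s) (n + 1))
      (B' := fun s => K * (Y / (1 - K * Y * (s - t0))) ^ 2)
      (continuousOn_const.mul (h.cont (n + 1) h0 h1))
      (fun s hs => (h.right (n + 1) (h0.trans hs.1) (hs.2.trans_le h1)).const_mul _) ?_ hBc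
      (fun s hs => (hB' s ⟨hs.1, hs.2.le⟩).hasDerivWithinAt) ?_ ht
    · simpa using hY0 (n + 1)
    · intro s hs
      have hs' : s ∈ Icc 0 T := ⟨h0.trans hs.1, (hs.2.trans_le h1).le⟩
      have h5 := h.rhs_le hg (n + 1) hs'
      rw [Nat.add_sub_cancel] at h5
      have h6 : g (n + 1) * rhs F g (fun m => a m s) (n + 1) ≤ g (n + 1) * F (n + 1) * a n s ^ 2 := by
        rw [mul_assoc]; exact mul_le_mul_of_nonneg_left h5 (hg _).le
      have h7 : g (n + 1) * F (n + 1) * a n s ^ 2 ≤ K * g n ^ 2 * a n s ^ 2 :=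
        mul_le_mul_of_nonneg_right (hK n) (sq_nonneg _)
      have h8 : K * g n ^ 2 * a n s ^ 2 = K * (g n * a n s) ^ 2 := by ring
      have h9 : (g n * a n s) ^ 2 ≤ (Y / (1 - K * Y * (s - t0))) ^ 2 := by
        refine pow_le_pow_left₀ (mul_nonneg (hg n).le (h.nonneg n s hs')) ?_ 2
        exact ih s ⟨hs.1, hs.2.le⟩
      calc g (n + 1) * rhs F g (fun m => a m s) (n + 1) ≤ K * (g n * a n s) ^ 2 := by
            rw [← h8]; exact h6.trans h7
        _ ≤ _ := mul_le_mul_of_nonneg_left h9 hK0.le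

/-- Propagation of weighted bounds. -/
theorem bound_w (h : IsSol F g T a) (hF0 : F 0 = 0)
    (hg : ∀ n, 0 < g n) {w : ℕ → ℝ} (hw : ∀ n, 0 < w n) {K : ℝ} (hK0 : 0 < K)
    (hK : ∀ n, w (n + 1) * F (n + 1) ≤ K * g n * w n)
    {t1 Y B : ℝ} (h1 : t1 ≤ T) (hY : 0 ≤ Y) (hB : 0 ≤ B)
    (hY0 : ∀ n, ∀ t ∈ Icc 0 t1, g n * a n t ≤ Y) (hB0 : ∀ n, w n * a n 0 ≤ B) (n : ℕ) :
    ∀ t ∈ Icc 0 t1, w n * a n t ≤ B * Real.exp (K * Y * t) := by
  have hE : ∀ t : ℝ, HasDerivAt (fun s => B * Real.exp (K * Y * s))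
      (K * Y * (B * Real.exp (K * Y * t))) t := by
    intro t
    have h2 : HasDerivAt (fun s => K * Y * s) (K * Y) t := by
      simpa using (hasDerivAt_id t).const_mul (K * Y)
    refine ((h2.exp).const_mul B).congr_deriv ?_
    ring
  have hBc : ContinuousOn (fun s => B * Real.exp (K * Y * s)) (Icc 0 t1) := fun t _ =>
    (hE t).continuousAt.continuousWithinAt
  induction n with
  | zero =>
    intro t ht
    refine image_le_of_deriv_right_le_deriv_boundary (f := fun s => w 0 * a 0 s)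
      (f' := fun s => w 0 * rhs F g (fun m => a m s) 0)
      (B' := fun s => K * Y * (B * Real.exp (K * Y * s)))
      (continuousOn_const.mul (h.cont 0 le_rfl h1))
      (fun s hs => (h.right 0 hs.1 (hs.2.trans_le h1)).const_mul _) ?_ hBc
      (fun s hs => (hE s).hasDerivWithinAt) ?_ ht
    · simpa using hB0 0
    · intro s hs
      have h5 := h.rhs_le hg 0 (t := s) ⟨hs.1, (hs.2.trans_le h1).le⟩
      rw [hF0, zero_mul] at h5
      have h6 : w 0 * rhs F g (fun m => a m s) 0 ≤ 0 := mul_nonpos_of_nonneg_of_nonpos (hw 0).le h5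
      have h7 : 0 ≤ K * Y * (B * Real.exp (K * Y * s)) := by positivity
      linarith
  | succ n ih =>
    intro t ht
    refine image_le_of_deriv_right_le_deriv_boundary (f := fun s => w (n + 1) * a (n + 1) s)
      (f' := fun s => w (n + 1) * rhs F g (fun m => a m s) (n + 1))
      (B' := fun s => K * Y * (B * Real.exp (K * Y * s)))
      (continuousOn_const.mul (h.cont (n + 1) le_rfl h1))
      (fun s hs => (h.right (n + 1) hs.1 (hs.2.trans_le h1)).const_mul _) ?_ hBc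
      (fun s hs => (hE s).hasDerivWithinAt) ?_ ht
    · simpa using hB0 (n + 1)
    · intro s hs
      have hs' : s ∈ Icc 0 T := ⟨hs.1, (hs.2.trans_le h1).le⟩
      have h5 := h.rhs_le hg (n + 1) hs'
      rw [Nat.add_sub_cancel] at h5
      have h6 : w (n + 1) * rhs F g (fun m => a m s) (n + 1) ≤ w (n + 1) * F (n + 1) * a n s ^ 2 := by
        rw [mul_assoc]; exact mul_le_mul_of_nonneg_left h5 (hw _).le
      have h7 : w (n + 1) * F (n + 1) * a n s ^ 2 ≤ K * g n * w n * a n s ^ 2 :=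
        mul_le_mul_of_nonneg_right (hK n) (sq_nonneg _)
      have h8 : K * g n * w n * a n s ^ 2 = K * ((g n * a n s) * (w n * a n s)) := by ring
      have h9 : (g n * a n s) * (w n * a n s) ≤ Y * (B * Real.exp (K * Y * s)) :=
        mul_le_mul (hY0 n s ⟨hs.1, hs.2.le⟩) (ih s ⟨hs.1, hs.2.le⟩)
          (mul_nonneg (hw n).le (h.nonneg n s hs')) hY
      calc w (n + 1) * rhs F g (fun m => a m s) (n + 1)
          ≤ K * ((g n * a n s) * (w n * a n s)) := by rw [← h8]; exact h6.trans h7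
        _ ≤ K * (Y * (B * Real.exp (K * Y * s))) := mul_le_mul_of_nonneg_left h9 hK0.le
        _ = _ := by ring

/-- The weighted sums grow. -/
lemma sum_rhs_ge (hF0 : F 0 = 0) {w κ : ℕ → ℝ} (hwg : ∀ n, 0 ≤ w n * g n)
    (hw0 : 1 / 2 * (w 0 * g 0) + κ 0 ≤ w 1 * F 1)
    (hws : ∀ n, 1 / 2 * (w (n + 1) * g (n + 1)) + 1 / 2 * (w n * g n) + κ (n + 1)
      ≤ w (n + 2) * F (n + 2)) (b : ℕ → ℝ) (M : ℕ) :
    ∑ n ∈ Finset.range (M + 1), κ n * b n ^ 2 - w (M + 1) * F (M + 1) * b M ^ 2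
      - 1 / 2 * (w M * g M) * b (M + 1) ^ 2 ≤ ∑ n ∈ Finset.range (M + 1), w n * rhs F g b n := by
  have amgm : ∀ n, w n * g n * (b n * b (n + 1))
      ≤ 1 / 2 * (w n * g n) * b n ^ 2 + 1 / 2 * (w n * g n) * b (n + 1) ^ 2 := by
    intro n
    nlinarith [hwg n, mul_nonneg (hwg n) (sq_nonneg (b n - b (n + 1)))]
  induction M with
  | zero =>
    simp only [zero_add, Finset.sum_range_one, rhs, hF0, zero_mul, zero_sub]
    have h1 := amgm 0
    have h2 : (1 / 2 * (w 0 * g 0) + κ 0) * b 0 ^ 2 ≤ w 1 * F 1 * b 0 ^ 2 :=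
      mul_le_mul_of_nonneg_right hw0 (sq_nonneg _)
    simp only [zero_add] at h1
    nlinarith
  | succ M ih =>
    rw [Finset.sum_range_succ, Finset.sum_range_succ _ (M + 1)]
    have h1 := amgm (M + 1)
    have h2 : (1 / 2 * (w (M + 1) * g (M + 1)) + 1 / 2 * (w M * g M) + κ (M + 1)) * b (M + 1) ^ 2
        ≤ w (M + 2) * F (M + 2) * b (M + 1) ^ 2 :=
      mul_le_mul_of_nonneg_right (hws M) (sq_nonneg _)
    have h3 : w (M + 1) * rhs F g b (M + 1) = w (M + 1) * F (M + 1) * b M ^ 2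
        - w (M + 1) * g (M + 1) * (b (M + 1) * b (M + 2)) := by
      simp only [rhs, Nat.add_sub_cancel]
      ring
    rw [h3]
    have e1 : M + 1 + 1 = M + 2 := rfl
    rw [e1] at *
    nlinarith

/-- Finite-time blow-up: the time interval of a solution which decays fast is bounded. -/
theorem lyap (h : IsSol F g T a) (hF0 : F 0 = 0) {w κ : ℕ → ℝ} (hw : ∀ n, 0 < w n)
    (hg : ∀ n, 0 < g n) (hκ : ∀ n, 0 < κ n)
    (hw0 : 1 / 2 * (w 0 * g 0) + κ 0 ≤ w 1 * F 1)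
    (hws : ∀ n, 1 / 2 * (w (n + 1) * g (n + 1)) + 1 / 2 * (w n * g n) + κ (n + 1)
      ≤ w (n + 2) * F (n + 2)) {S : ℝ} (hS0 : 0 < S)
    (hS : ∀ N, ∑ n ∈ Finset.range N, w n ^ 2 / κ n ≤ S) {T1 : ℝ} (hT0 : 0 ≤ T1) (hT1 : T1 ≤ T)
    (hdec : ∀ ε > 0, ∃ M : ℕ, ∀ t ∈ Icc 0 T1, w (M + 1) * F (M + 1) * a M t ^ 2
      + 1 / 2 * (w M * g M) * a (M + 1) t ^ 2 < ε) (h0 : 0 < a 0 0) :
    T1 < 2 * S / (w 0 * a 0 0) := by
  set l : ℝ := w 0 * a 0 0 with hl
  have hlpos : 0 < l := mul_pos (hw 0) h0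
  by_contra hcon
  push Not at hcon
  set τ : ℝ := 2 * S / l with hτ
  have hτpos : 0 < τ := by positivity
  obtain ⟨M, hM⟩ := hdec (l ^ 2 / (2 * S)) (by positivity)
  set y : ℝ → ℝ := fun t => ∑ n ∈ Finset.range (M + 1), w n * a n t with hy
  have hyc : ContinuousOn y (Icc 0 T1) :=
    continuousOn_finsetSum _ fun n _ => continuousOn_const.mul (h.cont n le_rfl hT1)
  have hy' : ∀ t ∈ Ico 0 T1, HasDerivWithinAt y
      (∑ n ∈ Finset.range (M + 1), w n * rhs F g (fun m => a m t) n) (Ici t) t := by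
    intro t ht
    exact HasDerivWithinAt.fun_sum fun n _ =>
      (h.right n ht.1 (ht.2.trans_le hT1)).const_mul (w n)
  have hy0 : l ≤ y 0 := by
    have : ∀ n ∈ Finset.range (M + 1), 0 ≤ w n * a n 0 := fun n _ =>
      mul_nonneg (hw n).le (h.nonneg n 0 ⟨le_rfl, hT0.trans hT1⟩)
    exact Finset.single_le_sum this (Finset.mem_range.2 (Nat.succ_pos M))
  have hge : ∀ t ∈ Icc 0 T1, y t ^ 2 / S - l ^ 2 / (2 * S)
      < ∑ n ∈ Finset.range (M + 1), w n * rhs F g (fun m => a m t) n := by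
    intro t ht
    have h1 := sum_rhs_ge hF0 (fun n => (mul_pos (hw n) (hg n)).le) hw0 hws
      (fun m => a m t) M
    have h2 := hM t ht
    have h3 : y t ^ 2 / S ≤ ∑ n ∈ Finset.range (M + 1), κ n * a n t ^ 2 := by
      rw [div_le_iff₀ hS0]
      have h4 : y t ^ 2 ≤ (∑ n ∈ Finset.range (M + 1), w n ^ 2 / κ n)
          * ∑ n ∈ Finset.range (M + 1), κ n * a n t ^ 2 := by
        refine Finset.sum_sq_le_sum_mul_sum_of_sq_le_mul _ (fun n _ => ?_) (fun n _ => ?_)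
          (fun n _ => ?_)
        · exact div_nonneg (sq_nonneg _) (hκ n).le
        · exact mul_nonneg (hκ n).le (sq_nonneg _)
        · have := (hκ n).ne'
          refine le_of_eq ?_
          field_simp
      have h5 : 0 ≤ ∑ n ∈ Finset.range (M + 1), κ n * a n t ^ 2 :=
        Finset.sum_nonneg fun n _ => mul_nonneg (hκ n).le (sq_nonneg _)
      calc y t ^ 2 ≤ _ := h4
        _ ≤ S * _ := mul_le_mul_of_nonneg_right (hS _) h5
        _ = _ := mul_comm _ _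
    linarith
  -- comparison
  have hcomp : ∀ t, 0 ≤ t → t < τ → l / (1 - t / τ) ≤ y t := by
    intro t ht0 ht1
    have htT : t ≤ T1 := ht1.le.trans hcon
    have hpos : ∀ s ∈ Icc 0 t, 0 < 1 - s / τ := by
      intro s hs
      have : s / τ < 1 := by rw [div_lt_one hτpos]; linarith [hs.2]
      linarith
    have hB' : ∀ s ∈ Icc 0 t, HasDerivAt (fun s => l / (1 - s / τ))
        ((l / (1 - s / τ)) ^ 2 / (2 * S)) s := by
      intro s hs
      have h2 : HasDerivAt (fun s => 1 - s / τ) (-(1 / τ)) s := by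
        simpa using ((hasDerivAt_id s).div_const τ).const_sub 1
      refine ((hasDerivAt_const s l).fun_div h2 (hpos s hs).ne').congr_deriv ?_
      have h3 := (hpos s hs).ne'
      have h4 : 1 / τ = l / (2 * S) := by rw [hτ]; field_simp
      rw [h4]
      field_simp
      ring
    refine image_le_of_deriv_right_lt_deriv_boundary' (f := fun s => l / (1 - s / τ))
      (f' := fun s => (l / (1 - s / τ)) ^ 2 / (2 * S)) (a := 0) (b := t)
      (fun s hs => (hB' s hs).continuousAt.continuousWithinAt)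
      (fun s hs => (hB' s ⟨hs.1, hs.2.le⟩).hasDerivWithinAt) (B := y) ?_
      (hyc.mono (Icc_subset_Icc_right htT))
      (fun s hs => hy' s ⟨hs.1, hs.2.trans_le htT⟩) ?_ ⟨ht0, le_rfl⟩
    · simpa using hy0
    · intro s hs heq
      have h1 := hge s ⟨hs.1, hs.2.le.trans htT⟩
      rw [heq]
      have h2 : l ≤ y s := by
        rw [← heq, le_div_iff₀ (hpos s ⟨hs.1, hs.2.le⟩)]
        have : 0 ≤ s / τ := div_nonneg hs.1 hτpos.le
        nlinarith
      have h3 : l ^ 2 ≤ y s ^ 2 := pow_le_pow_left₀ hlpos.le h2 2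
      have h4 : y s ^ 2 / (2 * S) ≤ y s ^ 2 / S - l ^ 2 / (2 * S) := by
        have e1 : y s ^ 2 / S = (2 * y s ^ 2) / (2 * S) := by field_simp
        rw [e1, ← sub_div]
        gcongr
        linarith
      exact h4.trans_lt h1
  -- contradiction with boundedness
  obtain ⟨B, hB⟩ := (isCompact_Icc.image_of_continuousOn hyc).isBounded.exists_norm_le
  have hB0 : ∀ t ∈ Icc 0 T1, y t ≤ B := fun t ht =>
    (le_abs_self _).trans (hB _ ⟨t, ht, rfl⟩)
  have hBl : l ≤ B := hy0.trans (hB0 0 ⟨le_rfl, hT0⟩)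
  have hBpos : 0 < B := hlpos.trans_le hBl
  -- choose t with l / (1 - t/τ) = 2 B
  have hr : l / (2 * B) < 1 := by rw [div_lt_one (by positivity)]; linarith
  have hr0 : 0 < l / (2 * B) := by positivity
  have h1 := hcomp (τ * (1 - l / (2 * B))) (mul_nonneg hτpos.le (by linarith))
    (by nlinarith)
  have h2 : 1 - τ * (1 - l / (2 * B)) / τ = l / (2 * B) := by
    field_simp
    ring
  rw [h2] at h1
  have h3 : l / (l / (2 * B)) = 2 * B := by field_simp
  rw [h3] at h1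
  have h4 := hB0 (τ * (1 - l / (2 * B))) ⟨mul_nonneg hτpos.le (by linarith),
    (by nlinarith : τ * (1 - l / (2 * B)) ≤ τ).trans hcon⟩
  linarith

/-- The blow-up time. -/
theorem exists_blowup (h : IsSol F g T a) (hF0 : F 0 = 0) (hF : ∀ n, 0 ≤ F n)
    {w κ v : ℕ → ℝ} (hw : ∀ n, 0 < w n) (hv : ∀ n, 0 < v n)
    (hg : ∀ n, 0 < g n) (hκ : ∀ n, 0 < κ n)
    (hw0 : 1 / 2 * (w 0 * g 0) + κ 0 ≤ w 1 * F 1)
    (hws : ∀ n, 1 / 2 * (w (n + 1) * g (n + 1)) + 1 / 2 * (w n * g n) + κ (n + 1)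
      ≤ w (n + 2) * F (n + 2)) {S : ℝ} (hS0 : 0 < S)
    (hS : ∀ N, ∑ n ∈ Finset.range N, w n ^ 2 / κ n ≤ S)
    {K Kv : ℝ} (hK0 : 0 < K) (hK : ∀ n, g (n + 1) * F (n + 1) ≤ K * g n ^ 2)
    (hKv0 : 0 < Kv) (hKv : ∀ n, v (n + 1) * F (n + 1) ≤ Kv * g n * v n)
    (hlim1 : Tendsto (fun M => w (M + 1) * F (M + 1) / v M ^ 2) atTop (𝓝 0))
    (hlim2 : Tendsto (fun M => w M * g M / v (M + 1) ^ 2) atTop (𝓝 0))
    {Y B : ℝ} (hY : 0 < Y) (hY0 : ∀ n, g n * a n 0 ≤ Y) (hB : 0 ≤ B) (hB0 : ∀ n, v n * a n 0 ≤ B)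
    (h0 : 0 < a 0 0) (hT : 2 * S / (w 0 * a 0 0) < T) :
    ∃ Ts : ℝ, 0 < Ts ∧ Ts ≤ 2 * S / (w 0 * a 0 0) ∧
      (∀ T' < Ts, ∃ B, ∀ t ∈ Icc 0 T', ∀ n, g n * a n t ≤ B) ∧
      ∀ t ∈ Ico 0 Ts, ∀ B, (∀ n, g n * a n t ≤ B) → 1 / (K * (Ts - t)) ≤ B := by
  have hl : 0 < w 0 * a 0 0 := mul_pos (hw 0) h0
  have hT0 : 0 < 2 * S / (w 0 * a 0 0) := by positivity
  have hTpos : 0 < T := hT0.trans hT
  set 𝒮 : Set ℝ := {T' | T' ∈ Icc 0 T ∧ ∃ B, ∀ t ∈ Icc 0 T', ∀ n, g n * a n t ≤ B} with h𝒮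
  -- elements of the set are small
  have hsmall : ∀ T' ∈ 𝒮, T' < 2 * S / (w 0 * a 0 0) := by
    rintro T' ⟨hT', B1, hB1⟩
    refine lyap h hF0 hw hg hκ hw0 hws hS0 hS hT'.1 hT'.2 ?_ h0
    intro ε hε
    have hB1' : ∀ n, ∀ t ∈ Icc 0 T', g n * a n t ≤ max B1 0 := fun n t ht =>
      (hB1 t ht n).trans (le_max_left _ _)
    have hdec := fun n => bound_w h hF0 hg hv hKv0 hKv hT'.2 (le_max_right B1 0) hB hB1' hB0 n
    set D : ℝ := B * Real.exp (Kv * max B1 0 * T') with hD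
    have hD0 : 0 ≤ D := by positivity
    have hva : ∀ n, ∀ t ∈ Icc 0 T', v n * a n t ≤ D := by
      intro n t ht
      refine (hdec n t ht).trans ?_
      have : Kv * max B1 0 * t ≤ Kv * max B1 0 * T' :=
        mul_le_mul_of_nonneg_left ht.2 (by positivity)
      exact mul_le_mul_of_nonneg_left (Real.exp_le_exp.2 this) hB
    have hsq : ∀ n, ∀ t ∈ Icc 0 T', a n t ^ 2 ≤ D ^ 2 / v n ^ 2 := by
      intro n t ht
      rw [← div_pow]
      refine pow_le_pow_left₀ (h.nonneg n t ⟨ht.1, ht.2.trans hT'.2⟩) ?_ 2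
      rw [le_div_iff₀ (hv n), mul_comm]
      exact hva n t ht
    have hl1 : Tendsto (fun M => w (M + 1) * F (M + 1) / v M ^ 2 * D ^ 2
        + 1 / 2 * (w M * g M / v (M + 1) ^ 2) * D ^ 2) atTop (𝓝 0) := by
      have h1 := (hlim1.mul_const (D ^ 2)).add ((hlim2.const_mul (1 / 2)).mul_const (D ^ 2))
      simpa using h1
    obtain ⟨M, hM⟩ := (hl1.eventually (gt_mem_nhds hε)).exists
    refine ⟨M, fun t ht => lt_of_le_of_lt ?_ hM⟩
    have h1 : w (M + 1) * F (M + 1) * a M t ^ 2 ≤ w (M + 1) * F (M + 1) / v M ^ 2 * D ^ 2 := by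
      calc w (M + 1) * F (M + 1) * a M t ^ 2
          ≤ w (M + 1) * F (M + 1) * (D ^ 2 / v M ^ 2) :=
            mul_le_mul_of_nonneg_left (hsq M t ht) (mul_nonneg (hw _).le (hF _))
        _ = _ := by ring
    have h2 : 1 / 2 * (w M * g M) * a (M + 1) t ^ 2
        ≤ 1 / 2 * (w M * g M / v (M + 1) ^ 2) * D ^ 2 := by
      calc 1 / 2 * (w M * g M) * a (M + 1) t ^ 2
          ≤ 1 / 2 * (w M * g M) * (D ^ 2 / v (M + 1) ^ 2) :=
            mul_le_mul_of_nonneg_left (hsq (M + 1) t ht)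
              (mul_nonneg (by norm_num) (mul_nonneg (hw _).le (hg _).le))
        _ = _ := by ring
    linarith
  have hmem0 : (0 : ℝ) ∈ 𝒮 := by
    refine ⟨⟨le_rfl, hTpos.le⟩, Y, fun t ht n => ?_⟩
    have : t = 0 := le_antisymm ht.2 ht.1
    rw [this]; exact hY0 n
  have hbdd : BddAbove 𝒮 := ⟨2 * S / (w 0 * a 0 0), fun T' hT' => (hsmall T' hT').le⟩
  set Ts : ℝ := sSup 𝒮 with hTs
  have hTsle : Ts ≤ 2 * S / (w 0 * a 0 0) := csSup_le ⟨0, hmem0⟩ fun T' hT' => (hsmall T' hT').le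
  have hTs0 : 0 ≤ Ts := le_csSup hbdd hmem0
  -- extension
  have hext : ∀ t ∈ Icc 0 Ts, t < T → (∃ B1, ∀ s ∈ Icc 0 t, ∀ n, g n * a n s ≤ B1) → ∀ B2, 0 < B2 →
      (∀ n, g n * a n t ≤ B2) → 1 ≤ K * B2 * (Ts - t) := by
    rintro t ht htT ⟨B1, hB1⟩ B2 hB2 hn
    by_contra hcon
    push Not at hcon
    obtain ⟨t1, ht1, ht1T, ht1K⟩ : ∃ t1, Ts < t1 ∧ t1 ≤ T ∧ K * B2 * (t1 - t) < 1 := by
      refine ⟨min T (Ts + (1 - K * B2 * (Ts - t)) / (2 * (K * B2))), ?_, min_le_left _ _, ?_⟩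
      · refine lt_min (hTsle.trans_lt hT) ?_
        have : 0 < (1 - K * B2 * (Ts - t)) / (2 * (K * B2)) := by
          apply div_pos (by linarith) (by positivity)
        linarith
      · have h1 : min T (Ts + (1 - K * B2 * (Ts - t)) / (2 * (K * B2))) - t
            ≤ (Ts - t) + (1 - K * B2 * (Ts - t)) / (2 * (K * B2)) := by
          have := min_le_right T (Ts + (1 - K * B2 * (Ts - t)) / (2 * (K * B2)))
          linarith
        calc _ ≤ K * B2 * ((Ts - t) + (1 - K * B2 * (Ts - t)) / (2 * (K * B2))) :=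
              mul_le_mul_of_nonneg_left h1 (by positivity)
          _ = K * B2 * (Ts - t) + (1 - K * B2 * (Ts - t)) / 2 := by field_simp
          _ < 1 := by linarith
    have htt1 : t ≤ t1 := ht.2.trans ht1.le
    have hmem : t1 ∈ 𝒮 := by
      refine ⟨⟨ht.1.trans htt1, ht1T⟩, max B1 (B2 / (1 - K * B2 * (t1 - t))), fun s hs n => ?_⟩
      rcases le_total s t with hst | hst
      · exact (hB1 s ⟨hs.1, hst⟩ n).trans (le_max_left _ _)
      · refine (bound_g h hF0 hg hK0 hK ht.1 ht1T hB2 hn ht1K n s ⟨hst, hs.2⟩).trans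
          ((div_le_div_of_nonneg_left hB2.le (by linarith) ?_).trans (le_max_right _ _))
        have : K * B2 * (s - t) ≤ K * B2 * (t1 - t) :=
          mul_le_mul_of_nonneg_left (by linarith [hs.2]) (by positivity)
        linarith
    exact absurd (le_csSup hbdd hmem) (not_le.2 ht1)
  have hTspos : 0 < Ts := by
    rcases hTs0.eq_or_lt with h1 | h1
    · have h2 := hext 0 ⟨le_rfl, hTs0⟩ hTpos ⟨Y, fun s hs n => by
        rw [le_antisymm hs.2 hs.1]; exact hY0 n⟩ Y hY hY0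
      rw [← h1] at h2
      norm_num at h2
    · exact h1
  have hbd : ∀ T' < Ts, ∃ B, ∀ t ∈ Icc 0 T', ∀ n, g n * a n t ≤ B := by
    intro T' hT'
    obtain ⟨T'', ⟨_, B1, hB1⟩, hT''⟩ := exists_lt_of_lt_csSup ⟨0, hmem0⟩ hT'
    exact ⟨B1, fun t ht n => hB1 t ⟨ht.1, ht.2.trans hT''.le⟩ n⟩
  refine ⟨Ts, hTspos, hTsle, hbd, fun t ht B2 hB2 => ?_⟩
  have hd : 0 < Ts - t := by linarith [ht.2]
  by_contra hcon
  push Not at hcon
  set B3 : ℝ := max B2 (1 / (2 * K * (Ts - t))) with hB3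
  have hB3pos : 0 < B3 := lt_of_lt_of_le (by positivity) (le_max_right _ _)
  have hB3lt : B3 < 1 / (K * (Ts - t)) := by
    refine max_lt hcon ?_
    refine one_div_lt_one_div_of_lt (by positivity) ?_
    nlinarith [mul_pos hK0 hd]
  have h1 := hext t ⟨ht.1, ht.2.le⟩ (ht.2.trans_le (hTsle.trans hT.le)) (hbd t ht.2) B3 hB3pos
    fun n => (hB2 n).trans (le_max_left _ _)
  rw [lt_div_iff₀ (by positivity)] at hB3lt
  linarith

end Pool.Agent.Y302.KP
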